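import Pool.Agent.H97.SDG.Targets
import Pool.Agent.H24.SD.CE1

/-!
[CE3] The number of `σ` without (E3), for the project SD on `MP_c62aed_lc`.
-/

set_option autoImplicit false

open Finset Pool.Agent.H97.SD Pool.Agent.H97.SDQ Pool.Agent.H97.SDG

namespace Pool.Agent.H3.SDG

/-- Few blocks outside the boundary. -/
theorem two_VJ {N M k : ℕ} (σ : Fin M → Fin k → Fin N) (J : Finset (Fin M)) :
    2 * (VJ σ J).card ≤ (bd σ J).card + k * J.card := by
  classical
  have hmaps : ∀ u ∈ J ×ˢ (univ : Finset (Fin k)), σ u.1 u.2 ∈ VJ σ J := by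
    intro u hu
    rw [Finset.mem_product] at hu
    unfold VJ
    exact Finset.mem_biUnion.2 ⟨u.1, hu.1, Finset.mem_image.2 ⟨u.2, Finset.mem_univ _, rfl⟩⟩
  have h1 := Finset.card_eq_sum_card_fiberwise (f := fun u : Fin M × Fin k => σ u.1 u.2)
    (s := J ×ˢ (univ : Finset (Fin k))) (t := VJ σ J) (fun u hu => hmaps u hu)
  rw [Finset.card_product, Finset.card_univ, Fintype.card_fin] at h1
  have h2 : ∀ j ∈ VJ σ J, 2 ≤ (if j ∈ bd σ J then 1 else 0) +
      ((J ×ˢ (univ : Finset (Fin k))).filter (fun u => σ u.1 u.2 = j)).card := by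
    intro j hj
    unfold VJ at hj
    obtain ⟨c, hc, hj⟩ := Finset.mem_biUnion.1 hj
    obtain ⟨i, _, hi⟩ := Finset.mem_image.1 hj
    have hmem : (c, i) ∈ (J ×ˢ (univ : Finset (Fin k))).filter (fun u => σ u.1 u.2 = j) := by
      rw [Finset.mem_filter, Finset.mem_product]
      exact ⟨⟨hc, Finset.mem_univ _⟩, hi⟩
    by_cases hb : j ∈ bd σ J
    · rw [if_pos hb]
      have : 0 < ((J ×ˢ (univ : Finset (Fin k))).filter (fun u => σ u.1 u.2 = j)).card :=
        Finset.card_pos.2 ⟨_, hmem⟩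
      omega
    · rw [if_neg hb]
      have hb' : ∃ c' ∈ J, (∃ i', σ c' i' = j) ∧ c' ≠ c := by
        by_contra hcon
        push Not at hcon
        apply hb
        unfold bd
        rw [Finset.mem_filter]
        exact ⟨Finset.mem_univ _, c, hc, ⟨i, hi⟩, fun c' hc' h => hcon c' hc' h⟩
      obtain ⟨c', hc', ⟨i', hi'⟩, hne⟩ := hb'
      have hmem' : (c', i') ∈ (J ×ˢ (univ : Finset (Fin k))).filter
          (fun u => σ u.1 u.2 = j) := by
        rw [Finset.mem_filter, Finset.mem_product]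
        exact ⟨⟨hc', Finset.mem_univ _⟩, hi'⟩
      have : 1 < ((J ×ˢ (univ : Finset (Fin k))).filter (fun u => σ u.1 u.2 = j)).card :=
        Finset.one_lt_card.2 ⟨_, hmem', _, hmem, fun h => hne (Prod.mk.inj h).1⟩
      omega
  have h3 := Finset.sum_le_sum h2
  rw [Finset.sum_const, smul_eq_mul, Finset.sum_add_distrib, ← h1] at h3
  have h4 : ∑ j ∈ VJ σ J, (if j ∈ bd σ J then 1 else 0) ≤ (bd σ J).card := by
    rw [← Finset.card_filter]
    apply Finset.card_le_card
    intro j hj
    exact (Finset.mem_filter.1 hj).2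
  rw [Nat.mul_comm k]
  omega

open Classical in
theorem pf_CE3 : P_CE3 := by
  intro N M k s₀ hsM hsN
  have hsub : univ.filter (fun σ : Fin M → Fin k → Fin N => ¬ E3 σ s₀) ⊆
      (Finset.Icc 1 s₀).biUnion (fun s => (Finset.powersetCard s (univ : Finset (Fin M))).biUnion
        (fun J => (Finset.powersetCard (3 * k * s / 4) (univ : Finset (Fin N))).biUnion
          (fun X => univ.filter (fun σ : Fin M → Fin k → Fin N =>
            ∀ c ∈ J, ∀ i, σ c i ∈ X)))) := by
    intro σ hσ
    rw [Finset.mem_filter] at hσ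
    have h1 := hσ.2
    unfold E3 at h1
    push Not at h1
    obtain ⟨J, hJs, hJ⟩ := h1
    have h2 := two_VJ σ J
    have h3 : 1 ≤ J.card := by
      rcases Nat.eq_zero_or_pos J.card with h | h
      · rw [h] at hJ
        omega
      · exact h
    have h4 : k * J.card ≤ k * s₀ := Nat.mul_le_mul_left _ hJs
    have h5 : 3 * k * J.card = 3 * (k * J.card) := Nat.mul_assoc _ _ _
    obtain ⟨X, hX1, hX2⟩ := Finset.exists_superset_card_eq (s := VJ σ J)
      (n := 3 * k * J.card / 4) (by rw [h5]; omega) (by rw [Fintype.card_fin, h5]; omega)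
    rw [Finset.mem_biUnion]
    refine ⟨J.card, Finset.mem_Icc.2 ⟨h3, hJs⟩, ?_⟩
    rw [Finset.mem_biUnion]
    refine ⟨J, Finset.mem_powersetCard.2 ⟨Finset.subset_univ _, rfl⟩, ?_⟩
    rw [Finset.mem_biUnion]
    refine ⟨X, Finset.mem_powersetCard.2 ⟨Finset.subset_univ _, hX2⟩, ?_⟩
    rw [Finset.mem_filter]
    refine ⟨Finset.mem_univ _, fun c hc i => hX1 ?_⟩
    unfold VJ
    exact Finset.mem_biUnion.2 ⟨c, hc, Finset.mem_image.2 ⟨i, Finset.mem_univ _, rfl⟩⟩
  refine (Finset.card_le_card hsub).trans (Finset.card_biUnion_le.trans ?_)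
  apply Finset.sum_le_sum
  intro s hs
  refine Finset.card_biUnion_le.trans ?_
  have h1 : ∀ J ∈ Finset.powersetCard s (univ : Finset (Fin M)),
      ((Finset.powersetCard (3 * k * s / 4) (univ : Finset (Fin N))).biUnion
          (fun X => univ.filter (fun σ : Fin M → Fin k → Fin N =>
            ∀ c ∈ J, ∀ i, σ c i ∈ X))).card ≤
        N.choose (3 * k * s / 4) * ((3 * k * s / 4) ^ (k * s) * N ^ (k * (M - s))) := by
    intro J hJ
    refine Finset.card_biUnion_le.trans ?_
    refine (Finset.sum_le_sum (fun X hX => Pool.Agent.H24.SD.card_JX1 s (3 * k * s / 4) J X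
      (Finset.mem_powersetCard.1 hJ).2 (Finset.mem_powersetCard.1 hX).2.le)).trans ?_
    rw [Finset.sum_const, Finset.card_powersetCard, Finset.card_univ, Fintype.card_fin,
      smul_eq_mul]
  refine (Finset.sum_le_sum h1).trans ?_
  rw [Finset.sum_const, Finset.card_powersetCard, Finset.card_univ, Fintype.card_fin,
    smul_eq_mul]
  apply le_of_eq
  ring

end Pool.Agent.H3.SDG
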