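import Pool.Agent.H97.SDG.Targets
import Pool.Agent.H99.SD.NE1

/-!
[NF1] The numerical inequality for (E1), with the factor 4, for the project SD on `MP_c62aed_lc`.
-/

set_option autoImplicit false

open Finset Pool.Agent.H97.SD Pool.Agent.H97.SDQ Pool.Agent.H97.SDG
open Pool.Agent.H99.SD (choose_le_ne1)

namespace Pool.Agent.H3.SDG

theorem bracket_nf1 (A k : ℕ) (hA : 1 ≤ A) (hk : 144 * A * (2 * A + 1) ≤ k) :
    (3 * k * (k + 1) / (2 * A) : ℝ) * Real.exp (-(k / (2 * A) : ℝ)) ≤ 1 / 4 := by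
  have hA' : (1 : ℝ) ≤ A := by exact_mod_cast hA
  have hk' : (144 * A * (2 * A + 1) : ℝ) ≤ k := by exact_mod_cast hk
  set x : ℝ := k / (2 * A) with hx
  have hkx : (k : ℝ) = 2 * A * x := by
    rw [hx]
    field_simp
  have hx1 : 72 * (2 * A + 1 : ℝ) ≤ x := by
    rw [hx, le_div_iff₀ (by positivity)]
    nlinarith
  have hx0 : (1 : ℝ) ≤ x := by nlinarith
  have he : x ^ 3 / 6 ≤ Real.exp x := by
    have := Real.pow_div_factorial_le_exp x (by linarith) 3
    have h6 : ((Nat.factorial 3 : ℕ) : ℝ) = 6 := by norm_num [Nat.factorial]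
    rw [h6] at this
    exact this
  have h1 : (3 * k * (k + 1) / (2 * A) : ℝ) ≤ 3 * (2 * A + 1) * x ^ 2 := by
    rw [hkx, div_le_iff₀ (by positivity)]
    have : (0 : ℝ) ≤ 2 * A * x * (x - 1) := by
      apply mul_nonneg
      · positivity
      · linarith
    nlinarith
  have h2 : 3 * (2 * A + 1) * x ^ 2 * 4 ≤ Real.exp x := by
    refine le_trans ?_ he
    rw [le_div_iff₀ (by norm_num)]
    have : (0 : ℝ) ≤ x ^ 2 * (x - 72 * (2 * A + 1)) := by
      apply mul_nonneg
      · positivity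
      · linarith
    nlinarith
  rw [Real.exp_neg, ← div_eq_mul_inv, div_le_iff₀ (Real.exp_pos x)]
  linarith

theorem pf_NF1 : P_NF1 := by
  intro A hA
  refine ⟨144 * A * (2 * A + 1), fun k N hk hN => ?_⟩
  have hk1 : 1 ≤ k := le_trans (by nlinarith) hk
  have hN1 : 1 ≤ N := hk1.trans hN
  have hA' : (1 : ℝ) ≤ A := by exact_mod_cast hA
  have hk' : (1 : ℝ) ≤ k := by exact_mod_cast hk1
  have hN' : (1 : ℝ) ≤ N := by exact_mod_cast hN1
  have hpk0 : 2 * A * N < k * (2 * A * N / k + 1) := Nat.lt_mul_div_succ _ hk1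
  have hp1 : 1 ≤ 2 * A * N / k + 1 := Nat.le_add_left 1 _
  generalize hp : 2 * A * N / k + 1 = p at hpk0 hp1 ⊢
  have hpM : p ≤ (k + 1) * N := by
    rw [← hp]
    have h1 : 2 * A * N / k ≤ 2 * A * N := Nat.div_le_self _ _
    have h2 : 2 * A + 1 ≤ k := le_trans (by nlinarith) hk
    nlinarith
  generalize hM : (k + 1) * N = M at hpM ⊢
  generalize ha : N - N / A - 1 = a
  have hp' : (1 : ℝ) ≤ p := by exact_mod_cast hp1
  have hpk : (2 * A * N : ℝ) ≤ k * p := by exact_mod_cast hpk0.le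
  have hMr : (M : ℝ) = (k + 1) * N := by rw [← hM]; push_cast; ring
  -- (1)
  have h1 : ((M.choose p : ℕ) : ℝ) ≤ (3 * k * (k + 1) / (2 * A) : ℝ) ^ p := by
    refine (choose_le_ne1 M p hp1).trans ?_
    apply pow_le_pow_left₀ (by positivity)
    rw [div_le_div_iff₀ (by positivity) (by positivity), hMr]
    have : (0 : ℝ) ≤ (k + 1) * (k * p - 2 * A * N) := by
      apply mul_nonneg
      · positivity
      · linarith
    nlinarith
  -- (2)
  have h2 : (a : ℝ) ≤ N * Real.exp (-(1 / A : ℝ)) := by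
    have e1 : (1 : ℝ) - 1 / A ≤ Real.exp (-(1 / A : ℝ)) := by
      have := Real.add_one_le_exp (-(1 / A : ℝ))
      linarith
    have e2 : (a : ℝ) ≤ N * (1 - 1 / A) := by
      have e3 : N < A * (N / A + 1) := Nat.lt_mul_div_succ _ hA
      have e4 : (N : ℝ) < A * ((N / A : ℕ) + 1) := by exact_mod_cast e3
      have e5 : (N : ℝ) / A ≤ (N / A : ℕ) + 1 := by
        rw [div_le_iff₀ (by positivity)]
        linarith
      have e6 : (N : ℝ) * (1 - 1 / A) = N - N / A := by ring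
      rw [e6]
      by_cases hle : N / A + 1 ≤ N
      · have e7 : (a : ℝ) = N - (N / A : ℕ) - 1 := by
          have : a + (N / A) + 1 = N := by omega
          have : ((a + (N / A) + 1 : ℕ) : ℝ) = N := by exact_mod_cast this
          push_cast at this
          linarith
        rw [e7]
        linarith
      · have : a = 0 := by omega
        rw [this]
        have e8 : (N : ℝ) / A ≤ N := by
          apply div_le_self (by linarith) hA'
        simpa using e8
    exact e2.trans (mul_le_mul_of_nonneg_left e1 (by positivity))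
  set E : ℝ := Real.exp (-((k : ℝ) * p / (2 * A))) with hE
  have hEpos : 0 < E := Real.exp_pos _
  have hEE : Real.exp (-(1 / A : ℝ)) ^ (k * p) = E * E := by
    rw [hE, ← Real.exp_add, ← Real.exp_nat_mul]
    congr 1
    push_cast
    field_simp
    ring
  have h3 : (a : ℝ) ^ (k * p) ≤ (N : ℝ) ^ (k * p) * (E * E) := by
    rw [← hEE, ← mul_pow]
    exact pow_le_pow_left₀ (by positivity) h2 _
  -- (3)
  have h4 : (3 * k * (k + 1) / (2 * A) : ℝ) ^ p * E ≤ 1 / 4 := by
    have e1 : E = Real.exp (-(k / (2 * A) : ℝ)) ^ p := by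
      rw [hE, ← Real.exp_nat_mul]
      congr 1
      ring
    rw [e1, ← mul_pow]
    have e2 := bracket_nf1 A k hA hk
    calc ((3 * k * (k + 1) / (2 * A) : ℝ) * Real.exp (-(k / (2 * A) : ℝ))) ^ p
        ≤ (1 / 4 : ℝ) ^ p := pow_le_pow_left₀ (by positivity) e2 _
      _ ≤ (1 / 4 : ℝ) ^ 1 := pow_le_pow_of_le_one (by norm_num) (by norm_num) hp1
      _ = 1 / 4 := by norm_num
  have h5 : (2 : ℝ) ^ N * E < 1 := by
    have e1 : E ≤ Real.exp (-(N : ℝ)) := by
      rw [hE]
      apply Real.exp_le_exp.2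
      apply neg_le_neg
      rw [le_div_iff₀ (by positivity)]
      linarith
    have e2 : Real.exp (-(N : ℝ)) = (Real.exp (-1)) ^ N := by
      rw [← Real.exp_nat_mul]
      congr 1
      ring
    have e3 : (2 : ℝ) * Real.exp (-1) < 1 := by
      rw [Real.exp_neg, ← div_eq_mul_inv, div_lt_one (Real.exp_pos 1)]
      linarith [Real.exp_one_gt_d9]
    calc (2 : ℝ) ^ N * E ≤ (2 : ℝ) ^ N * (Real.exp (-1)) ^ N := by
          rw [← e2]
          exact mul_le_mul_of_nonneg_left e1 (by positivity)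
      _ = ((2 : ℝ) * Real.exp (-1)) ^ N := by rw [mul_pow]
      _ < 1 := pow_lt_one₀ (by positivity) e3 (by omega)
  have hkM : k * M = k * p + k * (M - p) := by
    rw [← Nat.mul_add]
    congr 1
    omega
  have hfin : (4 : ℝ) * ((M.choose p : ℕ) * 2 ^ N * (a : ℝ) ^ (k * p) * (N : ℝ) ^ (k * (M - p)))
      < (N : ℝ) ^ (k * M) := by
    have g1 : (0 : ℝ) < (N : ℝ) ^ (k * M) := by positivity
    calc (4 : ℝ) * ((M.choose p : ℕ) * 2 ^ N * (a : ℝ) ^ (k * p) * (N : ℝ) ^ (k * (M - p)))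
        ≤ 4 * ((3 * k * (k + 1) / (2 * A) : ℝ) ^ p * 2 ^ N * ((N : ℝ) ^ (k * p) * (E * E)) *
          (N : ℝ) ^ (k * (M - p))) := by
          gcongr
      _ = 4 * (((3 * k * (k + 1) / (2 * A) : ℝ) ^ p * E) * (2 ^ N * E) *
          ((N : ℝ) ^ (k * p) * (N : ℝ) ^ (k * (M - p)))) := by ring
      _ = 4 * (((3 * k * (k + 1) / (2 * A) : ℝ) ^ p * E) * (2 ^ N * E) * (N : ℝ) ^ (k * M)) := by
          rw [← pow_add, ← hkM]
      _ ≤ 4 * ((1 / 4) * (2 ^ N * E) * (N : ℝ) ^ (k * M)) := by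
          gcongr
      _ = (2 ^ N * E) * (N : ℝ) ^ (k * M) := by ring
      _ < 1 * (N : ℝ) ^ (k * M) := by
          apply mul_lt_mul_of_pos_right h5 g1
      _ = (N : ℝ) ^ (k * M) := one_mul _
  exact_mod_cast hfin

end Pool.Agent.H3.SDG
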